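import Pool.Agent.PCS.Stmts

/-!
Squad PCS, row INT: finitely many infinite virtually normal subgroups have infinite intersection.
-/

namespace Pool.Agent.PCS.H3

open Pool.Agent.H50.CIG

theorem intF : Pool.Agent.PCS.IntStmt := by
  intro Γ _ hinf hCI H hH ι _ P hP hn hfin
  have := hinf
  have := hH
  have hHinf : (H : Set Γ).Infinite := by
    have h1 := inf_infinite (⊤ : Subgroup Γ) H (by rw [Subgroup.coe_top]; exact Set.infinite_univ)
    rwa [top_inf_eq] at h1
  have hfc : (fc Γ : Set Γ).Finite := fc_finite hCI
  obtain ⟨i, hi⟩ := exists_le_fc hCI (ι := Option ι) (fun _ => H)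
    (fun o => Option.elim o H P) (fun _ => hH) (by
      rintro (_ | i) h hh k hk
      · exact H.mul_mem (H.mul_mem hh hk) (H.inv_mem hh)
      · exact hn i h hh k hk) (by
      apply hfin.subset
      intro g hg
      have hg' : g ∈ (⨅ o : Option ι, (Option.elim o H P : Subgroup Γ)) := hg
      rw [Subgroup.mem_iInf] at hg'
      exact ⟨hg' none, fun i => hg' (some i)⟩)
  rcases i with _ | i
  · exact hHinf (hfc.subset hi)
  · exact hP i (hfc.subset hi)

end Pool.Agent.PCS.H3
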